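import Pool.Agent.H7.JB.Stmts

/-!
# Row WLG of the board jb14 (MP_fd41b2_co): the local inequality for a good vertex
-/

set_option autoImplicit false

open Finset

namespace Pool.JB7

open Pool.Agent.H23.KT Pool.Agent.H46.KW Pool.KQ Pool.GT7 Pool.GU7 Pool.HZ7

private lemma WLG_e1 (p : ℕ) : 0 < e1 p := by
  unfold e1
  positivity

private lemma WLG_s2 (p : ℕ) : 0 < s2 p := by
  unfold s2
  exact div_pos (WLG_e1 p) (by positivity)

private lemma WLG_mono {V : Type} {G : SimpleGraph V} {p a : ℕ} {e e' C : ℝ} {W : Finset V}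
    {P : Fin (p + 3) → Finset V} {U : Finset V} (h : Str G p a e' C W P U) (he : e' ≤ e) :
    Str G p a e C W P U :=
  { par := h.par
    disU := h.disU
    cov := h.cov
    lo := fun i => le_trans (mul_le_mul_of_nonneg_right (by linarith) (Nat.cast_nonneg _)) (h.lo i)
    hi := fun i => (h.hi i).trans (mul_le_mul_of_nonneg_right (by linarith) (Nat.cast_nonneg _))
    mis := h.mis
    tot := h.tot
    cU := h.cU
    exc := h.exc }

private lemma WLG_monoq {V : Type} {G : SimpleGraph V} {p a : ℕ} {e f C C' C'' : ℝ} {W : Finset V}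
    {P : Fin (p + 3) → Finset V} {U : Finset V} (h : Stq G p a e f C C' W P U) (hC : C' ≤ C'') :
    Stq G p a e f C C'' W P U :=
  { par := h.par
    disU := h.disU
    cov := h.cov
    lo := h.lo
    hi := h.hi
    mis := h.mis
    tot := h.tot
    cU := h.cU.trans hC }

/-- the size of the neighbourhood -/
private lemma WLG_card {p : ℕ} {A x C₂ ch : ℝ} (hA : 0 < A) (hx : 0 ≤ x) (hC : 0 ≤ C₂)
    (hch : ch = ((p : ℝ) + 3) * ((p : ℝ) + 2) / 2)
    (h : ch * A ^ 2 ≤ ch * (x / ((p : ℝ) + 3)) ^ 2 + C₂ * A) :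
    ((p : ℝ) + 3) * A ≤ x + 2 * C₂ := by
  by_contra hcon
  have hcon' := lt_of_not_ge hcon
  have hp : (0 : ℝ) ≤ p := Nat.cast_nonneg p
  set b : ℝ := (p : ℝ) + 3 with hb
  have hb3 : 3 ≤ b := by linarith
  have h1 : x < b * A - 2 * C₂ := by linarith
  have h2 : x * x ≤ (b * A - 2 * C₂) * (b * A) := by
    have h3 : x ≤ b * A := by linarith
    have h4 : x * x ≤ (b * A - 2 * C₂) * x := mul_le_mul_of_nonneg_right h1.le hx
    have h5 : (b * A - 2 * C₂) * x ≤ (b * A - 2 * C₂) * (b * A) :=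
      mul_le_mul_of_nonneg_left h3 (by linarith)
    linarith
  have h3 : ch = b * (b - 1) / 2 := by
    rw [hch, hb]
    ring
  rw [h3] at h
  have h4 : b * (b - 1) / 2 * (x / b) ^ 2 = (b - 1) / (2 * b) * (x * x) := by
    field_simp
  rw [h4] at h
  have h5 : (b - 1) / (2 * b) * (x * x) ≤ (b - 1) / (2 * b) * ((b * A - 2 * C₂) * (b * A)) :=
    mul_le_mul_of_nonneg_left h2 (div_nonneg (by linarith) (by linarith))
  have h6 : (b - 1) / (2 * b) * ((b * A - 2 * C₂) * (b * A)) =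
      b * (b - 1) / 2 * A ^ 2 - (b - 1) * C₂ * A := by
    field_simp
  rw [h6] at h5
  have h7 : (b - 1) * C₂ * A ≤ C₂ * A := by linarith
  have h8 : 0 ≤ C₂ * A := by positivity
  -- then `C₂ A = 0`, so `x < b A` gives a strict inequality
  have h9 : C₂ * A ≤ 0 := by
    have h14 : 1 * (C₂ * A) ≤ (b - 2) * (C₂ * A) := mul_le_mul_of_nonneg_right (by linarith) h8
    have h15 : (b - 1) * C₂ * A = (b - 2) * (C₂ * A) + C₂ * A := by ring
    linarith
  have h10 : C₂ = 0 := by
    rcases hC.eq_or_lt with h | h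
    · exact h.symm
    · have := mul_pos h hA
      linarith
  rw [h10] at h h1
  have h11 : x * x < (b * A) * (b * A) := by
    have h12 : x < b * A := by linarith
    exact mul_self_lt_mul_self hx h12
  have h12 : (b - 1) / (2 * b) * (x * x) < (b - 1) / (2 * b) * ((b * A) * (b * A)) :=
    mul_lt_mul_of_pos_left h11 (div_pos (by linarith) (by linarith))
  have h13 : (b - 1) / (2 * b) * ((b * A) * (b * A)) = b * (b - 1) / 2 * A ^ 2 := by
    field_simp
  linarith

theorem WLG_thm (h0 : GCGStmt) (h1 : STCStmt) (h2 : MMCStmt) (h3 : REGStmt) (h4 : LOGStmt)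
    (h5 : NDCStmt) (h8 : CCK0Stmt) (h6 : TTRStmt) (h7 : ZYGStmt) : WLGStmt := by
  intro p r hP
  obtain ⟨-, hph0, hph1, -, -, -⟩ := h0 p r hP
  have hrp := hP.rp
  have hgr := hP.gr
  have hp0 : (0 : ℝ) ≤ p := Nat.cast_nonneg p
  have hr1 : 1 ≤ r := by omega
  have hr0 : (0 : ℝ) < r := by exact_mod_cast hr1
  have hrp' : (r : ℝ) ≤ p := by exact_mod_cast hrp
  have hlz : 0 ≤ lz p r := by
    unfold lz
    refine div_nonneg (mul_nonneg (by linarith) (by linarith)) (by linarith)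
  have hs2 := WLG_s2 p
  have he1 := WLG_e1 p
  have hc0 : 0 < min (1 / 2) (s2 p) := lt_min (by norm_num) hs2
  set c : ℝ := min (1 / 2) (s2 p) with hc
  have hc1 : c ≤ 1 / 2 := min_le_left _ _
  have hc2 : c ≤ s2 p := min_le_right _ _
  refine ⟨c, hc0, by linarith, fun C₂ hC₂p => ?_⟩
  have hC₂0 : 0 ≤ C₂ := hC₂p.le
  obtain ⟨C, hC, hSTC⟩ := h1 p 0 (Nat.zero_le p) C₂
  obtain ⟨C₁, aM, hMMC⟩ := h2 p 0 (Nat.zero_le p) C₂
  refine ⟨C, C₁, hC, fun ε e hε he he8 => ?_⟩
  obtain ⟨f, hf0, hf1, hLOG⟩ := h4 p r hP C (ε / 2) hC (half_pos hε)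
  obtain ⟨CR, hCR, hREG⟩ := h3 p f C hf0 hC
  obtain ⟨K, hK, hNDC⟩ := h5 p r hP CR hCR
  set Cm : ℝ := max CR (2 * C₂ + r) with hCm
  obtain ⟨e₀, he₀, he₀', aL, hLOG'⟩ := hLOG Cm (lt_max_of_lt_left hCR)
  set e' : ℝ := min (min e (e₀ / 2)) (e1 p / 2) with he'
  have he'0 : 0 < e' := lt_min (lt_min he (half_pos he₀)) (half_pos he1)
  have he'e : e' ≤ e := (min_le_left _ _).trans (min_le_left _ _)
  have he'1 : e' ≤ e1 p / 2 := min_le_right _ _
  have he'2 : 2 * e' ≤ e₀ := by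
    have : e' ≤ e₀ / 2 := (min_le_left _ _).trans (min_le_right _ _)
    linarith
  obtain ⟨aR, hREG'⟩ := hREG e' he'0 (by linarith)
  obtain ⟨aS, hSTC'⟩ := hSTC e' he'0 (by linarith)
  refine ⟨max (max (max aM aL) (max aR aS)) (max (max 1 ⌈4 * (K * C) / ε⌉₊)
    ⌈4 * (lz p r * C₁) / ε⌉₊), fun a ha => ?_⟩
  intro V _ _ G hG v hdf'
  have haM : a ≥ aM := le_trans (le_max_left _ _) (le_trans (le_max_left _ _)
    (le_trans (le_max_left _ _) ha))
  have haL : a ≥ aL := le_trans (le_max_right _ _) (le_trans (le_max_left _ _)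
    (le_trans (le_max_left _ _) ha))
  have haR : a ≥ aR := le_trans (le_max_left _ _) (le_trans (le_max_right _ _)
    (le_trans (le_max_left _ _) ha))
  have haS : a ≥ aS := le_trans (le_max_right _ _) (le_trans (le_max_right _ _)
    (le_trans (le_max_left _ _) ha))
  have ha1' : 1 ≤ a := le_trans (le_max_left _ _) (le_trans (le_max_left _ _)
    (le_trans (le_max_right _ _) ha))
  have haK : 4 * (K * C) / ε ≤ (a : ℝ) := by
    refine (Nat.le_ceil _).trans ?_
    exact_mod_cast le_trans (le_max_right 1 _) (le_trans (le_max_left _ _)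
      (le_trans (le_max_right _ _) ha))
  have haE : 4 * (lz p r * C₁) / ε ≤ (a : ℝ) := by
    refine (Nat.le_ceil _).trans ?_
    exact_mod_cast le_trans (le_max_right (max 1 ⌈4 * (K * C) / ε⌉₊) _)
      (le_trans (le_max_right _ _) ha)
  have ha1 : (1 : ℝ) ≤ a := by exact_mod_cast ha1'
  have ha0 : (0 : ℝ) < a := by linarith
  set W : Finset V := nb G univ v with hW
  have hCB : CB G W (p + 3) := CB.nb (r := p + 3) hG.cb (mem_univ v)
  have hWc : W.card ≤ (p + 3) * a + r := hG.deg v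
  have hWc' : W.card ≤ (p + 3) * (a + 1) := by
    have : r ≤ p + 3 := by omega
    calc W.card ≤ (p + 3) * a + r := hWc
      _ ≤ (p + 3) * a + (p + 3) := by omega
      _ = (p + 3) * (a + 1) := by ring
  have hpow : (0 : ℝ) < (a : ℝ) ^ (p + 3) := by positivity
  have hM0 : 0 ≤ Mz p r a := by
    unfold Mz
    positivity
  have hMb : Mz p r a * (a : ℝ) ^ (p + 3) = ((p : ℝ) + 2) * ph p r * a := by
    unfold Mz
    rw [div_mul_cancel₀ _ hpow.ne']
  have hTT : ((p + 3).choose 2 : ℝ) * (a : ℝ) ^ 2 ≤ TT (p + 3) 2 a r := by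
    have := (h6.2.2.1 (p + 3) 2 a r (by omega)).1
    exact_mod_cast this
  have hdfe : df G p 0 r a W = (TT (p + 3) 2 a r : ℝ) - kc G W 2 := by
    unfold df
    rw [Nat.zero_add]
  have hk : ((p + 3).choose 2 : ℝ) * (a : ℝ) ^ 2 ≤ kc G W 2 + C₂ * a := by
    rw [hdfe] at hdf'
    linarith
  have hk' : ((p + 3).choose (0 + 2) : ℝ) * (a : ℝ) ^ (0 + 2) ≤
      kc G W (0 + 2) + C₂ * (a : ℝ) ^ (0 + 1) := by
    rw [Nat.zero_add, Nat.zero_add, pow_one]
    exact hk
  obtain ⟨P, U, hStr⟩ := hSTC' a haS G W hCB hWc' hk'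
  have hmm := hMMC a haM G W hCB hWc' hk'
  obtain ⟨P', U', hStq, hUU, hPP, hout⟩ := hREG' a haR G W P U hStr
  -- the size of `W`
  have hsize : (((p + 3) * a + r : ℕ) : ℝ) ≤ W.card + Cm := by
    have g1 := h7 G (p + 3) W hCB 2
    have hch : ((p + 3).choose 2 : ℝ) = ((p : ℝ) + 3) * ((p : ℝ) + 2) / 2 := by
      rw [Nat.cast_choose_two]
      push_cast
      ring
    have g2 : (W.card : ℝ) / ((p + 3 : ℕ) : ℝ) = (W.card : ℝ) / ((p : ℝ) + 3) := by
      push_cast
      rfl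
    rw [g2] at g1
    have g3 := WLG_card (p := p) (A := a) (x := W.card) (C₂ := C₂) ha0 (Nat.cast_nonneg _) hC₂0
      hch (by linarith)
    have g4 : 2 * C₂ + r ≤ Cm := le_max_right _ _
    push_cast
    linarith
  have hloc := hLOG' a haL G (2 * e') W P' U' U (by linarith) he'2
    (WLG_monoq hStq (le_max_left _ _)) hUU hout hCB hWc hsize
  -- the number of cliques
  have hkb : lz p r * a - ε / 4 * a ≤
      Mz p r a * ((r : ℝ) / ((p : ℝ) + 4)) * kc G W (p + 3) := by
    have g1 : (a : ℝ) ^ (p + 4) ≤ (a + C₁) * kc G W (p + 3) := by exact_mod_cast hmm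
    have hC₁ : (0 : ℝ) ≤ C₁ := Nat.cast_nonneg _
    have g2 : Mz p r a * ((r : ℝ) / ((p : ℝ) + 4)) * (a : ℝ) ^ (p + 3) = lz p r * a := by
      calc Mz p r a * ((r : ℝ) / ((p : ℝ) + 4)) * (a : ℝ) ^ (p + 3)
          = (Mz p r a * (a : ℝ) ^ (p + 3)) * ((r : ℝ) / ((p : ℝ) + 4)) := by ring
        _ = lz p r * a := by
            rw [hMb]
            unfold lz ph
            field_simp
    set κ : ℝ := (kc G W (p + 3) : ℝ) with hκ
    set ν : ℝ := Mz p r a * ((r : ℝ) / ((p : ℝ) + 4)) with hν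
    have hν0 : 0 ≤ ν := by positivity
    have g3 : (lz p r * a) * a ≤ (a + C₁) * (ν * κ) := by
      calc (lz p r * a) * a = ν * ((a : ℝ) ^ (p + 3) * a) := by rw [← g2]; ring
        _ = ν * (a : ℝ) ^ (p + 4) := by rw [← pow_succ]
        _ ≤ ν * ((a + C₁) * κ) := mul_le_mul_of_nonneg_left g1 hν0
        _ = _ := by ring
    have g4 : 4 * (lz p r * C₁) ≤ a * ε := by
      rwa [div_le_iff₀ hε] at haE
    by_contra hcon
    have hcon' := lt_of_not_ge hcon
    have g5 : ((a : ℝ) + C₁) * (ν * κ) < (a + C₁) * (lz p r * a - ε / 4 * a) :=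
      mul_lt_mul_of_pos_left hcon' (by linarith)
    have g6 : ((a : ℝ) + C₁) * (lz p r * a - ε / 4 * a) =
        (lz p r * a) * a + (lz p r * C₁) * a - ε / 4 * a * a - C₁ * (ε / 4 * a) := by ring
    have g7 : (lz p r * C₁) * a ≤ (a * ε / 4) * a :=
      mul_le_mul_of_nonneg_right (by linarith) ha0.le
    have g8 : 0 ≤ C₁ * (ε / 4 * a) := by positivity
    have g9 : (a * ε / 4) * a = ε / 4 * a * a := by ring
    linarith
  have hdebt : ∑ z ∈ U, ndz G p r a (un P') z ≤
      ∑ z ∈ U, ndz G p r a (un P) z + ε / 4 * a := by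
    have hPr : Pr0 p 0 r := ⟨Nat.zero_le p, hr1, hrp⟩
    have hdiff : ((un P \ un P').card : ℝ) ≤ CR := by
      refine le_trans ?_ hStq.cU
      have hsub : un P \ un P' ⊆ U' := by
        intro x hx
        rw [mem_sdiff] at hx
        have hxP : ∃ i, x ∈ P i := by
          have := hx.1
          unfold un at this
          simpa using this
        have hxW : x ∈ W := (hStr.cov x).2 (Or.inr hxP)
        rcases (hStq.cov x).1 hxW with h | ⟨i, hi⟩
        · exact h
        · exact absurd (by unfold un; simpa using ⟨i, hi⟩) hx.2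
      exact_mod_cast Finset.card_le_card hsub
    have hPc : ∀ i, (P i).card ≤ 2 * a := by
      intro i
      have g1 := hStr.hi i
      have g2 : (1 + e') * (a : ℝ) ≤ 2 * a := mul_le_mul_of_nonneg_right (by linarith) ha0.le
      have g3 : ((P i).card : ℝ) ≤ ((2 * a : ℕ) : ℝ) := by
        push_cast
        linarith
      exact_mod_cast g3
    have hone : ∀ z ∈ U, ndz G p r a (un P') z ≤ ndz G p r a (un P) z + K := fun z hz =>
      hNDC a ha1' G P P' z hPP hPc hdiff
        (h8 G p 0 r a e' C W P U hPr hStr he'0.le he'1 hCB z hz).1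
    have g1 : ∑ z ∈ U, ndz G p r a (un P') z ≤ ∑ z ∈ U, (ndz G p r a (un P) z + K) :=
      Finset.sum_le_sum hone
    rw [Finset.sum_add_distrib, Finset.sum_const, nsmul_eq_mul] at g1
    have g2 : (U.card : ℝ) * K ≤ K * C := by
      rw [mul_comm]
      exact mul_le_mul_of_nonneg_left hStr.cU hK.le
    have g3 : 4 * (K * C) ≤ a * ε := by
      rwa [div_le_iff₀ hε] at haK
    linarith
  have hdel : 0 ≤ (((p + 3) * a + r : ℕ) : ℝ) - W.card := by
    have : (W.card : ℝ) ≤ (((p + 3) * a + r : ℕ) : ℝ) := by exact_mod_cast hWc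
    linarith
  have hdel2 : 0 ≤ (a : ℝ) / 2 * ((((p + 3) * a + r : ℕ) : ℝ) - W.card) :=
    mul_nonneg (half_pos ha0).le hdel
  have hUn : 0 ≤ s2 p * a * U.card := by positivity
  have hbon : (if U = ∅ ∧ W.card = (p + 3) * a + r then 0 else c * a) ≤
      (a : ℝ) / 2 * ((((p + 3) * a + r : ℕ) : ℝ) - W.card) + s2 p * a * U.card := by
    split_ifs with hif
    · linarith
    · by_cases hcard : W.card = (p + 3) * a + r
      · have hU : U ≠ ∅ := fun h => hif ⟨h, hcard⟩
        have hU1 : (1 : ℝ) ≤ U.card := by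
          exact_mod_cast Finset.card_pos.2 (Finset.nonempty_iff_ne_empty.2 hU)
        have g2 : s2 p * a * 1 ≤ s2 p * a * U.card :=
          mul_le_mul_of_nonneg_left hU1 (mul_pos hs2 ha0).le
        have g3 : c * a ≤ s2 p * a := mul_le_mul_of_nonneg_right hc2 ha0.le
        linarith
      · have g0 : (1 : ℝ) ≤ (((p + 3) * a + r : ℕ) : ℝ) - W.card := by
          have : W.card + 1 ≤ (p + 3) * a + r := by omega
          have : ((W.card + 1 : ℕ) : ℝ) ≤ (((p + 3) * a + r : ℕ) : ℝ) := by exact_mod_cast this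
          rw [Nat.cast_add, Nat.cast_one] at this
          linarith
        have g1 : (a : ℝ) / 2 * 1 ≤ (a : ℝ) / 2 * ((((p + 3) * a + r : ℕ) : ℝ) - W.card) :=
          mul_le_mul_of_nonneg_left g0 (half_pos ha0).le
        have g3 : c * a ≤ 1 / 2 * a := mul_le_mul_of_nonneg_right hc1 ha0.le
        linarith
  refine ⟨P, U, WLG_mono hStr he'e, hmm, ?_⟩
  have hfin : Mz p r a * ∑ L ∈ clq G W (p + 3), min (r : ℝ) (XX G p r a W L) -
        Mz p r a * ((r : ℝ) / ((p : ℝ) + 4)) * kc G W (p + 3) + lz p r * a +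
        ((a : ℝ) / 2 * ((((p + 3) * a + r : ℕ) : ℝ) - W.card) + s2 p * a * U.card) ≤
      df G p 0 r a W + ∑ z ∈ U, ndz G p r a (un P) z + ε * a := by
    linarith
  linarith

end Pool.JB7
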